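import Mathlib
import Pool.Agent.Helper41.FQ.Def

/-!
# Gluing of functions in terms of `res`
-/

open AlgebraicGeometry CategoryTheory TopologicalSpace

universe u

noncomputable section

namespace FQ

variable {X : Scheme.{u}}

theorem res_res {U V W : X.Opens} (h : V ≤ U) (h' : W ≤ V) (g : Γ(X, U)) :
    res h' (res h g) = res (h'.trans h) g := by
  unfold res
  rw [← RingHom.comp_apply, ← CommRingCat.hom_comp, ← Functor.map_comp]
  rfl

theorem res_self {U : X.Opens} (g : Γ(X, U)) : res (le_refl U) g = g := by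
  unfold res
  have : (homOfLE (le_refl U)).op = 𝟙 (Opposite.op U) := rfl
  rw [this, X.presheaf.map_id]
  rfl

theorem exists_glue {ι : Type u} (U : ι → X.Opens) (V : X.Opens) (hUV : ∀ i, U i ≤ V)
    (hcov : V ≤ ⨆ i, U i) (f : ∀ i, Γ(X, U i))
    (hf : ∀ i j, (res inf_le_left (f i) : Γ(X, U i ⊓ U j)) = res inf_le_right (f j)) :
    ∃ g : Γ(X, V), ∀ i, res (hUV i) g = f i := by
  obtain ⟨g, hg, -⟩ := X.sheaf.existsUnique_gluing' U V (fun i => homOfLE (hUV i)) hcov f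
    (fun i j => hf i j)
  exact ⟨g, hg⟩

theorem eq_of_res {ι : Type u} (U : ι → X.Opens) (V : X.Opens) (hUV : ∀ i, U i ≤ V)
    (hcov : V ≤ ⨆ i, U i) (g g' : Γ(X, V)) (h : ∀ i, res (hUV i) g = res (hUV i) g') :
    g = g' :=
  X.sheaf.eq_of_locally_eq' U V (fun i => homOfLE (hUV i)) hcov g g' h

theorem exists_glue₂ (U₀ U₁ V : X.Opens) (h₀ : U₀ ≤ V) (h₁ : U₁ ≤ V) (hcov : V ≤ U₀ ⊔ U₁)
    (f₀ : Γ(X, U₀)) (f₁ : Γ(X, U₁))
    (hf : (res inf_le_left f₀ : Γ(X, U₀ ⊓ U₁)) = res inf_le_right f₁) :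
    ∃ g : Γ(X, V), res h₀ g = f₀ ∧ res h₁ g = f₁ := by
  let U : ULift.{u} Bool → X.Opens := fun b => match b.down with
    | true => U₀
    | false => U₁
  let f : ∀ b, Γ(X, U b) := fun b => match b with
    | ⟨true⟩ => f₀
    | ⟨false⟩ => f₁
  have hUV : ∀ b, U b ≤ V := by
    rintro ⟨_ | _⟩
    · exact h₁
    · exact h₀
  obtain ⟨g, hg⟩ := exists_glue U V hUV (by
    refine hcov.trans (sup_le ?_ ?_)
    · exact le_iSup U ⟨true⟩
    · exact le_iSup U ⟨false⟩) f (by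
    rintro ⟨_ | _⟩ ⟨_ | _⟩
    · rfl
    · change (res _ f₁ : Γ(X, U₁ ⊓ U₀)) = res _ f₀
      have e : U₁ ⊓ U₀ ≤ U₀ ⊓ U₁ := le_of_eq (inf_comm _ _)
      have := congrArg (res e) hf
      rw [res_res, res_res] at this
      exact this.symm
    · exact hf
    · rfl)
  exact ⟨g, hg ⟨true⟩, hg ⟨false⟩⟩

end FQ
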