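import Mathlib

open AlgebraicGeometry CategoryTheory

universe u

namespace Helper52.FQ

/-- Global functions on an integral scheme proper over an algebraically closed field are
constants. -/
theorem exists_const {k : Type u} [Field k] [IsAlgClosed k] {C : Scheme.{u}}
    (s : C ⟶ Spec (.of k)) [IsIntegral C] [IsProper s] (g : Γ(C, ⊤)) :
    ∃ c : k, g = s.appTop ((Scheme.ΓSpecIso (.of k)).inv c) := by
  have hfin := finite_appTop_of_universallyClosed k s
  let F := (Scheme.ΓSpecIso (.of k)).inv ≫ s.appTop
  have hF : F.hom.IsIntegral := by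
    apply RingHom.isIntegral_respectsIso.2
      (e := (Scheme.ΓSpecIso (.of k)).symm.commRingCatIsoToRingEquiv)
    exact isIntegral_appTop_of_universallyClosed s
  obtain ⟨c, hc⟩ : ∃ c : k, F.hom c = g := by
    have hdom : IsDomain Γ(C, ⊤) := inferInstance
    letI : Algebra k Γ(C, ⊤) := F.hom.toAlgebra
    haveI : Algebra.IsIntegral k Γ(C, ⊤) := ⟨hF⟩
    exact (IsAlgClosed.algebraMap_bijective_of_isIntegral (k := k) (K := Γ(C, ⊤))).2 g
  exact ⟨c, by rw [← hc]; rfl⟩

end Helper52.FQ
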