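import Mathlib

open AlgebraicGeometry CategoryTheory

universe u

namespace Helper52.FQ

/-- Proj of a graded domain with a nonzero homogeneous element of positive degree is an
integral scheme. -/
theorem isIntegral_Proj {A σ : Type u} [CommRing A] [IsDomain A] [SetLike σ A]
    [AddSubgroupClass σ A] (𝒜 : ℕ → σ) [GradedRing 𝒜] {f : A} {n : ℕ} (hf : f ∈ 𝒜 n)
    (hn : 0 < n) (hf0 : f ≠ 0) : IsIntegral (Proj 𝒜) := by
  classical
  -- the generic point
  let x0 : ProjectiveSpectrum 𝒜 :=
    { asHomogeneousIdeal := ⊥
      isPrime := by
        change (⊥ : HomogeneousIdeal 𝒜).toIdeal.IsPrime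
        rw [HomogeneousIdeal.toIdeal_bot]
        exact Ideal.isPrime_bot
      not_irrelevant_le := by
        intro h
        have h1 : f ∈ HomogeneousIdeal.irrelevant 𝒜 := by
          rw [HomogeneousIdeal.mem_irrelevant_iff, GradedRing.proj_apply,
            DirectSum.decompose_of_mem_ne 𝒜 hf hn.ne']
        have h2 : f ∈ (⊥ : HomogeneousIdeal 𝒜) := h h1
        have h3 : f ∈ (⊥ : HomogeneousIdeal 𝒜).toIdeal := h2
        rw [HomogeneousIdeal.toIdeal_bot] at h3
        exact hf0 h3 }
  have hgen : closure ({x0} : Set (ProjectiveSpectrum 𝒜)) = Set.univ := by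
    rw [Set.eq_univ_iff_forall]
    intro y
    rw [← ProjectiveSpectrum.le_iff_mem_closure]
    change (⊥ : HomogeneousIdeal 𝒜) ≤ _
    exact bot_le
  have hirr : IrreducibleSpace (ProjectiveSpectrum 𝒜) := by
    have : Nonempty (ProjectiveSpectrum 𝒜) := ⟨x0⟩
    have h1 : IsIrreducible (Set.univ : Set (ProjectiveSpectrum 𝒜)) := by
      rw [← hgen]
      exact isIrreducible_singleton.closure
    exact (irreducibleSpace_def _).2 h1
  have hirr' : IrreducibleSpace (Proj 𝒜) := hirr
  have hred : IsReduced (Proj 𝒜) := by
    have : ∀ i, IsReduced ((Proj.affineOpenCover 𝒜).openCover.X i) := by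
      intro i
      have : _root_.IsReduced (HomogeneousLocalization.Away 𝒜 (i.2 : A)) := by
        by_cases h0 : (i.2 : A) = 0
        · have hs : Subsingleton (HomogeneousLocalization.Away 𝒜 (i.2 : A)) := by
            have : Subsingleton (Localization.Away (i.2 : A)) := by
              rw [h0]
              exact IsLocalization.subsingleton (M := Submonoid.powers (0 : A))
                (Submonoid.mem_powers 0)
            exact (HomogeneousLocalization.val_injective _).subsingleton
          exact ⟨fun x _ => Subsingleton.elim _ _⟩
        · have hd : IsDomain (Localization.Away (i.2 : A)) :=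
            IsLocalization.isDomain_localization
              (powers_le_nonZeroDivisors_of_noZeroDivisors h0)
          exact isReduced_of_injective
            (algebraMap (HomogeneousLocalization.Away 𝒜 (i.2 : A)) (Localization.Away (i.2 : A)))
            (HomogeneousLocalization.val_injective _)
      exact inferInstanceAs (IsReduced (Spec (.of (HomogeneousLocalization.Away 𝒜 (i.2 : A)))))
    exact IsReduced.of_openCover _ (Proj.affineOpenCover 𝒜).openCover
  exact isIntegral_of_irreducibleSpace_of_isReduced _

end Helper52.FQ
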