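import Mathlib
import Pool.Agent.Helper52.FQ.ProjIntegral
import Pool.Agent.Helper52.FQ.Const

open AlgebraicGeometry CategoryTheory

universe u

namespace Helper52.FQ

variable (k : Type u) [Field k]

/-- structure morphism of Proj of a graded k-algebra. -/
noncomputable def projStr {A : Type u} [CommRing A] [Algebra k A] (𝒜 : ℕ → Submodule k A)
    [GradedAlgebra 𝒜] : Proj 𝒜 ⟶ Spec (.of k) :=
  Proj.toSpecZero 𝒜 ≫ Spec.map (CommRingCat.ofHom (algebraMap k (𝒜 0)))

/-- if the degree zero part is k and A is a finitely generated k-algebra, Proj A is proper. -/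
theorem isProper_projStr {A : Type u} [CommRing A] [Algebra k A] (𝒜 : ℕ → Submodule k A)
    [GradedAlgebra 𝒜] (h0 : Function.Bijective (algebraMap k (𝒜 0)))
    (hfg : Algebra.FiniteType k A) : IsProper (projStr k 𝒜) := by
  have hiso : IsIso (CommRingCat.ofHom (algebraMap k (𝒜 0))) := by
    have : IsIso ((forget CommRingCat).map (CommRingCat.ofHom (algebraMap k (𝒜 0)))) := by
      rw [isIso_iff_bijective]
      exact h0
    exact isIso_of_reflects_iso _ (forget CommRingCat)
  have : Algebra.FiniteType (𝒜 0) A := by
    have hs : Function.Surjective (algebraMap k (𝒜 0)) := h0.2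
    obtain ⟨S, hS⟩ := hfg.out
    refine ⟨⟨S, ?_⟩⟩
    rw [eq_top_iff]
    intro x _
    have hx : x ∈ Algebra.adjoin k (S : Set A) := by rw [hS]; trivial
    induction hx using Algebra.adjoin_induction with
    | mem x hx => exact Algebra.subset_adjoin hx
    | algebraMap r =>
      exact (Algebra.adjoin (𝒜 0) (S : Set A)).algebraMap_mem (algebraMap k (𝒜 0) r)
    | add x y _ _ hx hy => exact add_mem (hx trivial) (hy trivial)
    | mul x y _ _ hx hy => exact mul_mem (hx trivial) (hy trivial)
  unfold projStr
  infer_instance

section P1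

open MvPolynomial

attribute [local instance] MvPolynomial.gradedAlgebra

/-- The grading of `k[x₀, x₁]` by degree. -/
noncomputable abbrev gradP1 : ℕ → Submodule k (MvPolynomial (Fin 2) k) :=
  homogeneousSubmodule (Fin 2) k

/-- The projective line over `k`. -/
noncomputable def P1 : Scheme.{u} := Proj (gradP1 k)

/-- The structure morphism of the projective line. -/
noncomputable def P1str : P1 k ⟶ Spec (.of k) := projStr k (gradP1 k)

theorem gradP1_zero_bijective : Function.Bijective (algebraMap k (gradP1 k 0)) := by
  constructor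
  · intro a b hab
    have : (C a : MvPolynomial (Fin 2) k) = C b := congrArg Subtype.val hab
    exact C_injective _ _ this
  · rintro ⟨p, hp⟩
    have hp' : p.IsHomogeneous 0 := hp
    refine ⟨coeff 0 p, ?_⟩
    apply Subtype.ext
    change C (coeff 0 p) = p
    exact (totalDegree_eq_zero_iff_eq_C.mp ((totalDegree_zero_iff_isHomogeneous (Fin 2)).2 hp')).symm

instance : IsProper (P1str k) :=
  isProper_projStr k (gradP1 k) (gradP1_zero_bijective k) inferInstance

instance : IsIntegral (P1 k) :=
  isIntegral_Proj (gradP1 k) (f := X 0) (n := 1) (isHomogeneous_X k 0) one_pos (X_ne_zero 0)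

end P1

end Helper52.FQ
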