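import Mathlib
import Pool.Agent.Helper41.FQ.Def
import Pool.Agent.Helper52.FQ.P1

/-!
# The projective line: functions on the two charts
-/

open AlgebraicGeometry CategoryTheory

universe u

noncomputable section

namespace FQ

attribute [local instance] MvPolynomial.gradedAlgebra

theorem away_isUnit_aux {A σ : Type u} [CommRing A] [SetLike σ A] [AddSubgroupClass σ A]
    (𝒜 : ℕ → σ) [GradedRing 𝒜] {f g : A} (hf : f ∈ 𝒜 1) (hg : g ∈ 𝒜 (1 • 1))
    (h : IsUnit (HomogeneousLocalization.Away.mk 𝒜 hf 1 g hg)) {K : Type u} [Field K]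
    (φ : A →+* K) (hφ : φ f ≠ 0) : φ g ≠ 0 := by
  have h3 := h.map (algebraMap (HomogeneousLocalization.Away 𝒜 f) (Localization.Away f))
  have hu : IsUnit (φ f) := hφ.isUnit
  let ψ : Localization.Away f →+* K := IsLocalization.Away.lift f hu
  have h4 := h3.map ψ
  have h5 : ψ (algebraMap (HomogeneousLocalization.Away 𝒜 f) (Localization.Away f)
      (HomogeneousLocalization.Away.mk 𝒜 hf 1 g hg)) * φ f = φ g := by
    have e1 : φ f = ψ (algebraMap A (Localization.Away f) f) := by
      simp [ψ]
    have e2 : φ g = ψ (algebraMap A (Localization.Away f) g) := by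
      simp [ψ]
    rw [e1, e2, ← map_mul]
    congr 1
    rw [HomogeneousLocalization.algebraMap_apply, HomogeneousLocalization.Away.val_mk,
      Localization.mk_eq_mk']
    have h6 := IsLocalization.mk'_spec (Localization (Submonoid.powers f)) g
      (⟨f ^ 1, 1, rfl⟩ : Submonoid.powers f)
    rw [← h6]
    congr 1
    exact congrArg _ (pow_one f).symm
  intro h0
  rw [h0] at h5
  exact (mul_ne_zero h4.ne_zero hφ) h5

theorem mk_mul_mk_aux {A σ : Type u} [CommRing A] [SetLike σ A] [AddSubgroupClass σ A]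
    (𝒜 : ℕ → σ) [GradedRing 𝒜] {f g : A} (M : Submonoid A) (hf : f ^ 1 ∈ M) (hg : g ^ 1 ∈ M) :
    IsLocalization.mk' (Localization M) g ⟨f ^ 1, hf⟩ *
      IsLocalization.mk' (Localization M) f ⟨g ^ 1, hg⟩ = 1 := by
  rw [← IsLocalization.mk'_mul, IsLocalization.mk'_eq_iff_eq_mul]
  simp only [pow_one, one_mul, Submonoid.coe_mul, map_mul]
  ring

variable (k : Type u) [Field k]

theorem PP.coord_mul (i j : Fin 2) :
    (res inf_le_left (PP.coord k 1 i j) * res inf_le_right (PP.coord k 1 j i) :
      Γ(PP k 1, PP.chart k 1 i ⊓ PP.chart k 1 j)) = 1 := by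
  apply Subtype.ext
  funext x
  apply HomogeneousLocalization.val_injective
  have h1 := Proj.mul_apply (𝒜 := (MvPolynomial.homogeneousSubmodule (Fin (1 + 1)) k))
    (res inf_le_left (PP.coord k 1 i j)) (res inf_le_right (PP.coord k 1 j i)) x
  erw [h1]
  rw [HomogeneousLocalization.val_mul]
  erw [Proj.one_apply]
  rw [HomogeneousLocalization.val_one]
  erw [ProjectiveSpectrum.Proj.awayToSection_apply, ProjectiveSpectrum.Proj.awayToSection_apply]
  erw [HomogeneousLocalization.Away.val_mk, HomogeneousLocalization.Away.val_mk]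
  rw [Localization.mk_eq_mk', Localization.mk_eq_mk', IsLocalization.map_mk',
    IsLocalization.map_mk']
  exact mk_mul_mk_aux (MvPolynomial.homogeneousSubmodule (Fin (1 + 1)) k) _ _ _

/-- `x₀ / x₁` is not a unit on `D₊(x₁)`. -/
theorem PP.not_isUnit_coord (i j : Fin 2) (hij : i ≠ j) : ¬ IsUnit (PP.coord k 1 i j) := by
  intro h
  unfold PP.coord at h
  have hb : Function.Bijective (Proj.awayToSection
      (MvPolynomial.homogeneousSubmodule (Fin (1 + 1)) k) (MvPolynomial.X i)).hom := by
    have hiso : IsIso (Proj.awayToSection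
        (MvPolynomial.homogeneousSubmodule (Fin (1 + 1)) k) (MvPolynomial.X i)) :=
      (inferInstance : IsIso (Proj.basicOpenIsoAway
        (MvPolynomial.homogeneousSubmodule (Fin (1 + 1)) k) (MvPolynomial.X i)
        (MvPolynomial.isHomogeneous_X k i) one_pos).hom)
    exact ConcreteCategory.bijective_of_isIso (Proj.awayToSection
      (MvPolynomial.homogeneousSubmodule (Fin (1 + 1)) k) (MvPolynomial.X i))
  have h2 := (MulEquiv.isUnit_map (RingEquiv.ofBijective _ hb)).1 h
  have h3 := away_isUnit_aux (MvPolynomial.homogeneousSubmodule (Fin (1 + 1)) k)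
    (MvPolynomial.isHomogeneous_X k i) _ h2 (MvPolynomial.eval (Pi.single i (1 : k))) (by simp)
  apply h3
  rw [MvPolynomial.eval_X, Pi.single_eq_of_ne hij.symm]

end FQ
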