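import Mathlib
import Pool.Agent.Helper52.FQ.Line
import Pool.Agent.Helper52.FQ.Glue

/-!
# `𝒪(-a)` on the projective line has no sections for `a > 0`
-/

open AlgebraicGeometry CategoryTheory TopologicalSpace

universe u

noncomputable section

namespace FQ

attribute [local instance] MvPolynomial.gradedAlgebra

variable (k : Type u) [Field k]

instance : IsIntegral (PP k 1) := inferInstanceAs (IsIntegral (Helper52.FQ.P1 k))

instance : IsProper (PP.str k 1) := inferInstanceAs (IsProper (Helper52.FQ.P1str k))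

theorem PP.nonempty_chart (i : Fin 2) : Nonempty (PP.chart k 1 i) := by
  by_contra hne
  have hbot : PP.chart k 1 i = ⊥ := by
    rw [eq_bot_iff]
    intro x hx
    exact (hne ⟨⟨x, hx⟩⟩).elim
  have hj : ∃ j : Fin 2, i ≠ j := ⟨i + 1, by fin_cases i <;> decide⟩
  obtain ⟨j, hj⟩ := hj
  apply PP.not_isUnit_coord k i j hj
  have hs : Subsingleton Γ(PP k 1, PP.chart k 1 i) := by
    rw [hbot]
    exact CommRingCat.subsingleton_of_isTerminal (PP k 1).sheaf.isTerminalOfEmpty
  exact isUnit_of_subsingleton _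

theorem PP.nonempty_inf : Nonempty ((PP.chart k 1 0 ⊓ PP.chart k 1 1 : (PP k 1).Opens)) := by
  obtain ⟨x, hx⟩ := PP.nonempty_chart k 0
  obtain ⟨y, hy⟩ := PP.nonempty_chart k 1
  obtain ⟨z, hz⟩ := nonempty_preirreducible_inter (PP.chart k 1 0).isOpen
    (PP.chart k 1 1).isOpen ⟨x, hx⟩ ⟨y, hy⟩
  exact ⟨⟨z, hz⟩⟩

theorem PP.cover : (⊤ : (PP k 1).Opens) ≤ PP.chart k 1 0 ⊔ PP.chart k 1 1 := by
  let 𝒜 := MvPolynomial.homogeneousSubmodule (Fin (1 + 1)) k
  have h := Proj.iSup_basicOpen_eq_top' 𝒜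
    (fun i : Fin (1 + 1) => (MvPolynomial.X i : MvPolynomial (Fin (1 + 1)) k))
    (fun i => ⟨1, MvPolynomial.isHomogeneous_X k i⟩) (by
      rw [eq_top_iff]
      intro p _
      induction p using MvPolynomial.induction_on with
      | C a =>
        have := (Algebra.adjoin (𝒜 0) (Set.range fun i : Fin (1 + 1) =>
          (MvPolynomial.X i : MvPolynomial (Fin (1 + 1)) k))).algebraMap_mem
          (algebraMap k (𝒜 0) a)
        exact this
      | add p q hp hq => exact add_mem (hp trivial) (hq trivial)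
      | mul_X p i hp => exact mul_mem (hp trivial) (Algebra.subset_adjoin ⟨i, rfl⟩))
  change (⊤ : (PP k 1).Opens) ≤ _
  rw [← show (⨆ i, Proj.basicOpen 𝒜 (MvPolynomial.X i) : (PP k 1).Opens) = ⊤ from h]
  refine iSup_le fun i => ?_
  fin_cases i
  · exact le_sup_left
  · exact le_sup_right

theorem line_vanish [IsAlgClosed k] {a : ℤ} (ha : 0 < a) (p₀ : Γ(PP k 1, PP.chart k 1 0))
    (p₁ : Γ(PP k 1, PP.chart k 1 1))
    (h : (res inf_le_left (PP.coord k 1 0 1) ^ (-a).toNat * res inf_le_right p₁ :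
        Γ(PP k 1, PP.chart k 1 0 ⊓ PP.chart k 1 1)) =
      res inf_le_left (PP.coord k 1 0 1) ^ a.toNat * res inf_le_left p₀) :
    p₀ = 0 ∧ p₁ = 0 := by
  obtain ⟨n, hn⟩ : ∃ n : ℕ, a = n + 1 := ⟨(a - 1).toNat, by omega⟩
  have e1 : (-a).toNat = 0 := by omega
  have e2 : a.toNat = n + 1 := by omega
  rw [e1, e2, pow_zero, one_mul] at h
  have hmul := PP.coord_mul k 0 1
  set t : Γ(PP k 1, PP.chart k 1 0 ⊓ PP.chart k 1 1) :=
    res inf_le_left (PP.coord k 1 0 1) with ht
  set r : Γ(PP k 1, PP.chart k 1 0 ⊓ PP.chart k 1 1) :=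
    res inf_le_right (PP.coord k 1 1 0) with hr
  -- glue `p₀` and `r ^ (n+1) * p₁`
  obtain ⟨g, hg0, hg1⟩ := exists_glue₂ (PP.chart k 1 0) (PP.chart k 1 1) ⊤ le_top le_top
    (PP.cover k) p₀ (PP.coord k 1 1 0 ^ (n + 1) * p₁) (by
      rw [map_mul, map_pow, ← hr, h, ← mul_assoc, ← mul_pow, mul_comm r t, hmul, one_pow,
        one_mul])
  obtain ⟨c, hc⟩ := Helper52.FQ.exists_const (PP.str k 1) g
  have hc0 : c = 0 := by
    by_contra hc0
    have hu : IsUnit g := by
      rw [hc]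
      have := (IsUnit.mk0 c hc0).map
        ((PP.str k 1).appTop.hom.comp (Scheme.ΓSpecIso (.of k)).inv.hom)
      exact this
    have hu1 := hu.map (res (le_top : PP.chart k 1 1 ≤ ⊤))
    rw [hg1] at hu1
    have hu2 : IsUnit (PP.coord k 1 1 0) := by
      have := isUnit_of_mul_isUnit_left hu1
      exact (isUnit_pow_iff (Nat.succ_ne_zero n)).1 this
    exact PP.not_isUnit_coord k 1 0 (by decide) hu2
  have hg : g = 0 := by
    rw [hc, hc0, map_zero, map_zero]
  have hp0 : p₀ = 0 := by rw [← hg0, hg, map_zero]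
  refine ⟨hp0, ?_⟩
  rw [hp0, map_zero, mul_zero] at h
  have := PP.nonempty_inf k
  have hinj : Function.Injective
      (res (inf_le_right : PP.chart k 1 0 ⊓ PP.chart k 1 1 ≤ PP.chart k 1 1)) :=
    map_injective_of_isIntegral (X := PP k 1) (homOfLE inf_le_right)
  exact hinj (by rw [h, map_zero])

end FQ
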