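import Mathlib
import Pool.Agent.Helper52.FQ.Glue

/-!
# Operations on `TangentSection`
-/

open AlgebraicGeometry CategoryTheory TopologicalSpace

universe u

noncomputable section

namespace FQ

variable {k : Type u} [Field k] {X Y Z : Scheme.{u}} {s : X ⟶ Spec (.of k)}

theorem res_pull (f : Y ⟶ X) {W W' : Y.Opens} {U U' : X.Opens} (hW : W' ≤ W) (hU : U' ≤ U)
    (a : Γ(X, U)) :
    res (inf_le_inf hW (f.preimage_mono hU)) (pull f W U a) = pull f W' U' (res hU a) := by
  unfold pull res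
  rw [← RingHom.comp_apply, ← RingHom.comp_apply, ← CommRingCat.hom_comp,
    ← CommRingCat.hom_comp, Scheme.Hom.appLE_map, Scheme.Hom.map_appLE]

theorem res_pull_left (f : Y ⟶ X) {W W' : Y.Opens} {U : X.Opens} (hW : W' ≤ W)
    (a : Γ(X, U)) :
    res (inf_le_inf_right _ hW) (pull f W U a) = pull f W' U a := by
  unfold pull res
  rw [← RingHom.comp_apply, ← CommRingCat.hom_comp, Scheme.Hom.appLE_map]

/-- Restriction of a section of `f^* T_X`. -/
def TangentSection.restrict {f : Y ⟶ X} {W : Y.Opens} (σ : TangentSection s f W)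
    {W' : Y.Opens} (h : W' ≤ W) : TangentSection s f W' where
  toFun U a := res (inf_le_inf_right _ h) (σ.toFun U a)
  map_add' U a b := by rw [σ.map_add', map_add]
  leibniz' U a b := by
    rw [σ.leibniz', map_add, map_mul, map_mul, res_pull_left f h, res_pull_left f h]
  map_scal' U c := by rw [σ.map_scal', map_zero]
  map_res' U V hUV a := by rw [σ.map_res' U V hUV, res_res, res_res]

/-- Composition of a vector field on `V ⊆ X` with `f : Y ⟶ X`. -/
def TangentSection.comp {V : X.Opens} (δ : TangentSection s (𝟙 X) V) (f : Y ⟶ X) :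
    TangentSection s f (f ⁻¹ᵁ V) where
  toFun U a := (f.appLE (V ⊓ (𝟙 X : X ⟶ X) ⁻¹ᵁ U) (f ⁻¹ᵁ V ⊓ f ⁻¹ᵁ U) (le_refl _)).hom
    (δ.toFun U a)
  map_add' U a b := by rw [δ.map_add', map_add]
  leibniz' U a b := by
    rw [δ.leibniz', map_add, map_mul, map_mul]
    have h : ∀ c : Γ(X, U), (f.appLE (V ⊓ (𝟙 X : X ⟶ X) ⁻¹ᵁ U) (f ⁻¹ᵁ V ⊓ f ⁻¹ᵁ U)
        (le_refl _)).hom (pull (𝟙 X) V U c) = pull f (f ⁻¹ᵁ V) U c := by
      intro c
      unfold pull
      rw [← RingHom.comp_apply, ← CommRingCat.hom_comp, Scheme.Hom.appLE_comp_appLE]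
      simp only [Category.comp_id]
    rw [h, h]
  map_scal' U c := by rw [δ.map_scal', map_zero]
  map_res' U V' hUV a := by
    rw [δ.map_res' U V' hUV]
    unfold res
    rw [← RingHom.comp_apply, ← RingHom.comp_apply, ← CommRingCat.hom_comp,
      ← CommRingCat.hom_comp, Scheme.Hom.appLE_map, Scheme.Hom.map_appLE]

end FQ
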