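import Mathlib
import Pool.Agent.Helper52.FQ.Tangent
import Pool.Agent.Helper52.FQ.LineVanish

/-!
# A nowhere vanishing system of global 1-forms excludes very free curves
-/

open AlgebraicGeometry CategoryTheory TopologicalSpace

universe u

noncomputable section

namespace FQ

attribute [local instance] MvPolynomial.gradedAlgebra

variable {k : Type u} [Field k] {X Y : Scheme.{u}} {s : X ⟶ Spec (.of k)}

/-- A global 1-form given on the members `U c` of an open cover as `u c • d (v c)`. -/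
structure OneForm (s : X ⟶ Spec (.of k)) {ι : Type u} (U : ι → X.Opens) where
  u : ∀ c, Γ(X, U c)
  v : ∀ c, Γ(X, U c)
  compat : ∀ {Y : Scheme.{u}} (f : Y ⟶ X) (W : Y.Opens) (σ : TangentSection s f W) (c c' : ι),
    pull f W (U c ⊓ U c') (res inf_le_left (u c)) * σ.toFun (U c ⊓ U c') (res inf_le_left (v c)) =
      pull f W (U c ⊓ U c') (res inf_le_right (u c')) *
        σ.toFun (U c ⊓ U c') (res inf_le_right (v c'))

variable {ι : Type u} {U : ι → X.Opens}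

/-- The value of a 1-form on a tangent section. -/
theorem OneForm.exists_value (hU : (⊤ : X.Opens) ≤ ⨆ c, U c) (β : OneForm s U) {f : Y ⟶ X}
    {W : Y.Opens} (σ : TangentSection s f W) :
    ∃ b : Γ(Y, W), ∀ c, res inf_le_left b = pull f W (U c) (β.u c) * σ.toFun (U c) (β.v c) := by
  have hcov : W ≤ ⨆ c, W ⊓ f ⁻¹ᵁ (U c) := by
    intro y hy
    have h1 : f y ∈ (⨆ c, U c : X.Opens) := hU trivial
    obtain ⟨c, hc⟩ := Opens.mem_iSup.1 h1
    exact Opens.mem_iSup.2 ⟨c, hy, hc⟩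
  refine exists_glue (fun c => W ⊓ f ⁻¹ᵁ (U c)) W (fun c => inf_le_left) hcov _ ?_
  intro c c'
  have hle : (W ⊓ f ⁻¹ᵁ (U c)) ⊓ (W ⊓ f ⁻¹ᵁ (U c')) ≤ W ⊓ f ⁻¹ᵁ (U c ⊓ U c') :=
    fun y hy => ⟨hy.1.1, hy.1.2, hy.2.2⟩
  have h := congrArg (res hle) (β.compat f W σ c c')
  rw [map_mul, map_mul, σ.map_res', σ.map_res', ← res_pull f (le_refl W) inf_le_left,
    ← res_pull f (le_refl W) inf_le_right, res_res, res_res, res_res, res_res] at h
  rw [map_mul, map_mul]
  exact h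

theorem not_isSRC_of_oneForms [IsAlgClosed k] (hU : (⊤ : X.Opens) ≤ ⨆ c, U c) {J : Type*}
    (β : J → OneForm s U)
    (hβ : ∀ x : X, ∃ (c : ι) (j : J) (δ : TangentSection s (𝟙 X) (U c)),
      x ∈ X.basicOpen (pull (𝟙 X) (U c) (U c) ((β j).u c) * δ.toFun (U c) ((β j).v c))) :
    ¬ IsSeparablyRationallyConnected s := by
  rintro ⟨f, -, n, a, ha, e, e', he, -, hee⟩
  -- every form vanishes on every `e i`
  have key : ∀ (j : J) (i : Fin n) (c : ι),
      pull f (PP.chart k 1 0) (U c) ((β j).u c) * (e i).toFun (U c) ((β j).v c) = 0 := by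
    intro j i c
    obtain ⟨p₀, hp₀⟩ := (β j).exists_value hU (e i)
    obtain ⟨p₁, hp₁⟩ := (β j).exists_value hU (e' i)
    have h := line_vanish k (ha i) p₀ p₁ (by
      have hcov : PP.chart k 1 0 ⊓ PP.chart k 1 1 ≤
          ⨆ c, (PP.chart k 1 0 ⊓ PP.chart k 1 1) ⊓ f ⁻¹ᵁ (U c) := by
        intro y hy
        have h1 : f y ∈ (⨆ c, U c : X.Opens) := hU trivial
        obtain ⟨c, hc⟩ := Opens.mem_iSup.1 h1
        exact Opens.mem_iSup.2 ⟨c, hy, hc⟩
      refine eq_of_res _ _ (fun c => inf_le_left) hcov _ _ (fun c => ?_)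
      have h1 := hee i (U c) ((β j).v c)
      have h2 := congrArg (res (inf_le_inf_right (f ⁻¹ᵁ U c)
        (inf_le_left : PP.chart k 1 0 ⊓ PP.chart k 1 1 ≤ _))) (hp₀ c)
      have h3 := congrArg (res (inf_le_inf_right (f ⁻¹ᵁ U c)
        (inf_le_right : PP.chart k 1 0 ⊓ PP.chart k 1 1 ≤ _))) (hp₁ c)
      rw [res_res, map_mul, res_pull_left f inf_le_left] at h2
      rw [res_res, map_mul, res_pull_left f inf_le_right] at h3
      rw [map_mul, map_mul, map_pow, map_pow, res_res, res_res, res_res, h2, h3]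
      calc _ = pull f (PP.chart k 1 0 ⊓ PP.chart k 1 1) (U c) ((β j).u c) *
            (res (inf_le_left.trans inf_le_left) (PP.coord k 1 0 1) ^ (-a i).toNat *
              res (inf_le_inf_right (f ⁻¹ᵁ U c) inf_le_right) ((e' i).toFun (U c) ((β j).v c))) := by
            ring
        _ = _ := by rw [h1]
        _ = _ := by ring)
    rw [← hp₀ c, h.1, map_zero]
  -- a point
  obtain ⟨y, hy⟩ := PP.nonempty_chart k 0
  obtain ⟨c, j, δ, hx⟩ := hβ (f y)
  set V : (PP k 1).Opens := PP.chart k 1 0 ⊓ f ⁻¹ᵁ (U c) with hV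
  obtain ⟨g, hg, -⟩ := he V inf_le_left ((δ.comp f).restrict inf_le_right)
  have h1 := hg (U c) ((β j).v c)
  have h2 : pull f V (U c) ((β j).u c) *
      ((δ.comp f).restrict (inf_le_right : V ≤ _)).toFun (U c) ((β j).v c) = 0 := by
    rw [h1, Finset.mul_sum]
    refine Finset.sum_eq_zero fun i _ => ?_
    have h3 := congrArg (res (inf_le_inf_right (f ⁻¹ᵁ U c) (inf_le_left : V ≤ _))) (key j i c)
    rw [map_mul, map_zero, res_pull_left f inf_le_left] at h3
    rw [mul_left_comm, h3, mul_zero]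
  -- contradiction at the point
  have hle : V ⊓ f ⁻¹ᵁ (U c) ≤ f ⁻¹ᵁ (U c ⊓ (𝟙 X : X ⟶ X) ⁻¹ᵁ (U c)) :=
    fun y hy => ⟨hy.2, hy.2⟩
  have h4 : (f.appLE (U c ⊓ (𝟙 X : X ⟶ X) ⁻¹ᵁ (U c)) (V ⊓ f ⁻¹ᵁ (U c)) hle).hom
      (pull (𝟙 X) (U c) (U c) ((β j).u c) * δ.toFun (U c) ((β j).v c)) = 0 := by
    rw [map_mul, ← h2]
    congr 1
    · unfold pull
      rw [← RingHom.comp_apply, ← CommRingCat.hom_comp, Scheme.Hom.appLE_comp_appLE]
      simp only [Category.comp_id]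
  have hyV : y ∈ V ⊓ f ⁻¹ᵁ (U c) := by
    have hyc : f y ∈ U c := by
      have := X.basicOpen_le _ hx
      exact this.1
    exact ⟨⟨hy, hyc⟩, hyc⟩
  have h5 : y ∈ (PP k 1).basicOpen ((f.appLE (U c ⊓ (𝟙 X : X ⟶ X) ⁻¹ᵁ (U c))
      (V ⊓ f ⁻¹ᵁ (U c)) hle).hom
      (pull (𝟙 X) (U c) (U c) ((β j).u c) * δ.toFun (U c) ((β j).v c))) := by
    erw [Scheme.basicOpen_appLE]
    exact ⟨hyV, hx⟩
  rw [h4, Scheme.basicOpen_zero] at h5
  exact h5

end FQ
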