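import Mathlib
import Pool.Agent.Helper52.FQ.Tangent

/-!
# Vector fields on an affine open set from derivations of its ring of functions
-/

open AlgebraicGeometry CategoryTheory TopologicalSpace

universe u

noncomputable section

namespace FQ

/-- Uniqueness of derivations on a localisation. -/
theorem deriv_unique_aux {B S N : Type*} [CommRing B] [CommRing S] [CommRing N] [Algebra B S]
    (M : Submonoid B) [IsLocalization M S] (ψ : S →+* N) (D₁ D₂ : S → N)
    (h₁ : ∀ x y, D₁ (x * y) = ψ x * D₁ y + ψ y * D₁ x)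
    (h₂ : ∀ x y, D₂ (x * y) = ψ x * D₂ y + ψ y * D₂ x)
    (h : ∀ b : B, D₁ (algebraMap B S b) = D₂ (algebraMap B S b)) (x : S) : D₁ x = D₂ x := by
  obtain ⟨⟨b, m⟩, hb⟩ := IsLocalization.surj M x
  have e₁ := h₁ x (algebraMap B S m)
  have e₂ := h₂ x (algebraMap B S m)
  rw [hb, h] at e₁
  rw [hb] at e₂
  have hu : IsUnit (ψ (algebraMap B S m)) := (IsLocalization.map_units S m).map ψ
  have e₃ : ψ (algebraMap B S m) * D₁ x = ψ (algebraMap B S m) * D₂ x := by
    rw [h] at e₁
    have := e₁.symm.trans e₂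
    exact add_left_cancel this
  exact hu.mul_left_cancel e₃

/-- Existence of the extension of a derivation to a localisation. -/
theorem exists_deriv_aux {B S : Type u} [CommRing B] [CommRing S] [Algebra B S]
    (M : Submonoid B) [IsLocalization M S] (δ : B → B)
    (hadd : ∀ x y, δ (x + y) = δ x + δ y) (hmul : ∀ x y, δ (x * y) = x * δ y + y * δ x) :
    ∃ D : S → S, (∀ x y, D (x + y) = D x + D y) ∧ (∀ x y, D (x * y) = x * D y + y * D x) ∧
      ∀ b, D (algebraMap B S b) = algebraMap B S (δ b) := by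
  have h1 : δ 1 = 0 := by
    have := hmul 1 1
    rw [one_mul, one_mul] at this
    have h2 : δ 1 + 0 = δ 1 + δ 1 := by rw [add_zero]; exact this
    exact (add_left_cancel h2).symm
  have h0 : δ 0 = 0 := by
    have := hadd 0 0
    rw [add_zero] at this
    have h2 : δ 0 + 0 = δ 0 + δ 0 := by rw [add_zero]; exact this
    exact (add_left_cancel h2).symm
  let Φ : B →+* DualNumber S :=
    { toFun := fun b => TrivSqZeroExt.inl (algebraMap B S b) +
        TrivSqZeroExt.inr (algebraMap B S (δ b))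
      map_one' := by
        ext <;> simp [h1]
      map_mul' := by
        intro x y
        ext
        · simp
        · simp only [hmul, map_add, map_mul, TrivSqZeroExt.snd_add, TrivSqZeroExt.snd_inl,
            TrivSqZeroExt.snd_inr, TrivSqZeroExt.snd_mul, TrivSqZeroExt.fst_add,
            TrivSqZeroExt.fst_inl, TrivSqZeroExt.fst_inr, add_zero, zero_add, smul_eq_mul,
            MulOpposite.smul_eq_mul_unop, MulOpposite.unop_op]
          ring
      map_zero' := by
        ext <;> simp [h0]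
      map_add' := by
        intro x y
        ext
        · simp
        · simp only [hadd, map_add, TrivSqZeroExt.snd_add, TrivSqZeroExt.snd_inl,
            TrivSqZeroExt.snd_inr]
          ring }
  have hΦ : ∀ m : M, IsUnit (Φ m) := by
    intro m
    rw [TrivSqZeroExt.isUnit_iff_isUnit_fst]
    have : (Φ m).fst = algebraMap B S m := by simp [Φ]
    rw [this]
    exact IsLocalization.map_units S m
  let Ψ : S →+* DualNumber S := IsLocalization.lift (M := M) hΦ
  have hΨ : ∀ b, Ψ (algebraMap B S b) = Φ b := fun b => IsLocalization.lift_eq hΦ b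
  have hfst : ∀ x, (Ψ x).fst = x := by
    have : (TrivSqZeroExt.fstHom S S S).toRingHom.comp Ψ = RingHom.id S := by
      apply IsLocalization.ringHom_ext M
      ext b
      simp [hΨ, Φ]
    intro x
    exact congrArg (fun f : S →+* S => f x) this
  refine ⟨fun x => (Ψ x).snd, ?_, ?_, ?_⟩
  · intro x y
    simp
  · intro x y
    change (Ψ (x * y)).snd = x * (Ψ y).snd + y * (Ψ x).snd
    rw [map_mul, TrivSqZeroExt.snd_mul, hfst, hfst]
    simp only [smul_eq_mul, MulOpposite.smul_eq_mul_unop, MulOpposite.unop_op]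
    ring
  · intro b
    change (Ψ (algebraMap B S b)).snd = _
    rw [hΨ]
    simp [Φ, Algebra.algebraMap_eq_smul_one]

section

variable {X : Scheme.{u}}

theorem exists_deriv_basic {U : X.Opens} (hU : IsAffineOpen U) (δ : Γ(X, U) → Γ(X, U))
    (hadd : ∀ x y, δ (x + y) = δ x + δ y) (hmul : ∀ x y, δ (x * y) = x * δ y + y * δ x)
    (g : Γ(X, U)) (O : X.Opens) (hO : X.basicOpen g = O) (hle : O ≤ U) :
    ∃ D : Γ(X, O) → Γ(X, O), (∀ x y, D (x + y) = D x + D y) ∧
      (∀ x y, D (x * y) = x * D y + y * D x) ∧ ∀ b, D (res hle b) = res hle (δ b) := by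
  subst hO
  have := hU.isLocalization_basicOpen g
  obtain ⟨D, h1, h2, h3⟩ := exists_deriv_aux (S := Γ(X, X.basicOpen g))
    (Submonoid.powers g) δ hadd hmul
  exact ⟨D, h1, h2, h3⟩

theorem deriv_basic_unique {U : X.Opens} (hU : IsAffineOpen U) (g : Γ(X, U)) (O : X.Opens)
    (hO : X.basicOpen g = O) (hle : O ≤ U) {N : Type*} [CommRing N] (ψ : Γ(X, O) →+* N)
    (D₁ D₂ : Γ(X, O) → N)
    (h₁ : ∀ x y, D₁ (x * y) = ψ x * D₁ y + ψ y * D₁ x)
    (h₂ : ∀ x y, D₂ (x * y) = ψ x * D₂ y + ψ y * D₂ x)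
    (h : ∀ b, D₁ (res hle b) = D₂ (res hle b)) (x : Γ(X, O)) : D₁ x = D₂ x := by
  subst hO
  have := hU.isLocalization_basicOpen g
  exact deriv_unique_aux (Submonoid.powers g) ψ D₁ D₂ h₁ h₂ h x

theorem res_pull_id {U V O : X.Opens} (h : O ≤ U ⊓ (𝟙 X : X ⟶ X) ⁻¹ᵁ V) (h' : O ≤ V)
    (a : Γ(X, V)) : res h (pull (𝟙 X) U V a) = res h' a := by
  unfold pull res
  rw [← RingHom.comp_apply, ← CommRingCat.hom_comp, Scheme.Hom.appLE_map]
  have : (𝟙 X : X ⟶ X).appLE V O h' = X.presheaf.map (homOfLE h').op := by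
    simp only [Scheme.Hom.appLE, Scheme.Hom.id_app]
    exact Category.id_comp _
  rw [← this]

theorem res_scal' {k : Type u} [Field k] (s : X ⟶ Spec (.of k)) {U V : X.Opens} (h : V ≤ U)
    (c : k) : res h (scal s U c) = scal s V c := by
  unfold scal res
  change (X.presheaf.map (homOfLE h).op).hom ((s.appLE ⊤ U le_top).hom _) =
    (s.appLE ⊤ V le_top).hom _
  rw [← RingHom.comp_apply, ← CommRingCat.hom_comp, Scheme.Hom.appLE_map]

theorem exists_basic_cover {U : X.Opens} (hU : IsAffineOpen U) {W : X.Opens} (hW : W ≤ U) :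
    W ≤ ⨆ g : {g : Γ(X, U) // X.basicOpen g ≤ W}, X.basicOpen g.1 := by
  intro x hx
  obtain ⟨g, hg, hxg⟩ := hU.exists_basicOpen_le ⟨x, hx⟩ (hW hx)
  exact Opens.mem_iSup.2 ⟨⟨g, hg⟩, hxg⟩

variable {k : Type u} [Field k]

/-- A derivation of the ring of functions of an affine open set gives a vector field. -/
theorem exists_ofDerivation (s : X ⟶ Spec (.of k)) {U : X.Opens} (hU : IsAffineOpen U)
    (δ : Γ(X, U) → Γ(X, U)) (hadd : ∀ x y, δ (x + y) = δ x + δ y)
    (hmul : ∀ x y, δ (x * y) = x * δ y + y * δ x) (hscal : ∀ c : k, δ (scal s U c) = 0) :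
    ∃ σ : TangentSection s (𝟙 X) U, ∀ a : Γ(X, U), σ.toFun U a = res inf_le_left (δ a) := by
  classical
  -- the derivation on basic open sets
  have hD := fun (g : Γ(X, U)) => exists_deriv_basic hU δ hadd hmul g _ rfl (X.basicOpen_le g)
  choose D hDadd hDmul hDres using hD
  -- compatibility
  have hcomp : ∀ (g g' : Γ(X, U)) (h : X.basicOpen g' ≤ X.basicOpen g) (x : Γ(X, X.basicOpen g)),
      res h (D g x) = D g' (res h x) := by
    intro g g' h x
    refine deriv_basic_unique hU g _ rfl (X.basicOpen_le g) (res h) (fun x => res h (D g x))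
      (fun x => D g' (res h x)) ?_ ?_ ?_ x
    · intro x y
      rw [hDmul, map_add, map_mul, map_mul]
    · intro x y
      rw [map_mul, hDmul]
    · intro b
      rw [hDres, res_res, res_res, hDres]
  -- the value on `V`
  let W : X.Opens → X.Opens := fun V => U ⊓ (𝟙 X : X ⟶ X) ⁻¹ᵁ V
  have hWV : ∀ V, W V ≤ V := fun V x hx => hx.2
  have hval : ∀ (V : X.Opens) (a : Γ(X, V)), ∃ b : Γ(X, W V),
      ∀ (g : Γ(X, U)) (hg : X.basicOpen g ≤ W V), res hg b = D g (res (hg.trans (hWV V)) a) := by
    intro V a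
    obtain ⟨b, hb⟩ := exists_glue (fun g : {g : Γ(X, U) // X.basicOpen g ≤ W V} =>
      X.basicOpen g.1) (W V) (fun g => g.2) (exists_basic_cover hU inf_le_left)
      (fun g => D g.1 (res (g.2.trans (hWV V)) a)) (by
        rintro ⟨g, hg⟩ ⟨g', hg'⟩
        have e : X.basicOpen (g * g') = X.basicOpen g ⊓ X.basicOpen g' := X.basicOpen_mul g g'
        have h1 : X.basicOpen (g * g') ≤ X.basicOpen g := by rw [e]; exact inf_le_left
        have h2 : X.basicOpen (g * g') ≤ X.basicOpen g' := by rw [e]; exact inf_le_right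
        have k1 := hcomp g (g * g') h1 (res (hg.trans (hWV V)) a)
        have k2 := hcomp g' (g * g') h2 (res (hg'.trans (hWV V)) a)
        rw [res_res] at k1 k2
        have k3 := k1.trans k2.symm
        have k4 := congrArg (res (le_of_eq e.symm)) k3
        rw [res_res, res_res] at k4
        exact k4)
    exact ⟨b, fun g hg => hb ⟨g, hg⟩⟩
  choose E hE using hval
  have hext : ∀ (V : X.Opens) (b b' : Γ(X, W V)),
      (∀ (g : Γ(X, U)) (hg : X.basicOpen g ≤ W V), res hg b = res hg b') → b = b' := by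
    intro V b b' h
    exact eq_of_res (fun g : {g : Γ(X, U) // X.basicOpen g ≤ W V} =>
      X.basicOpen g.1) (W V) (fun g => g.2) (exists_basic_cover hU inf_le_left) b b'
      (fun g => h g.1 g.2)
  refine ⟨⟨E, ?_, ?_, ?_, ?_⟩, ?_⟩
  · intro V a b
    refine hext V _ _ fun g hg => ?_
    rw [map_add, hE, hE, hE, map_add, hDadd]
  · intro V a b
    refine hext V _ _ fun g hg => ?_
    rw [map_add, map_mul, map_mul, hE, hE, hE, map_mul, hDmul,
      res_pull_id hg (hg.trans (hWV V)), res_pull_id hg (hg.trans (hWV V))]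
  · intro V c
    refine hext V _ _ fun g hg => ?_
    rw [map_zero, hE]
    have h1 : res (hg.trans (hWV V)) (scal s V c) = res (X.basicOpen_le g) (scal s U c) := by
      rw [res_scal', res_scal']
    rw [h1, hDres, hscal, map_zero]
  · intro V V' hV a
    refine hext V' _ _ fun g hg => ?_
    rw [hE, res_res, res_res, hE]
  · intro a
    refine hext U _ _ fun g hg => ?_
    rw [hE, res_res, hDres]

end

end FQ
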