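import Mathlib
import Pool.Agent.Helper52.FQ.Curve
import Pool.Agent.Helper52.FQ.OfDeriv

/-!
# Not separably rationally connected: the criterion in terms of charts
-/

open AlgebraicGeometry CategoryTheory TopologicalSpace

universe u

noncomputable section

namespace FQ

variable {k : Type u} [Field k] {X Y : Scheme.{u}} {s : X ⟶ Spec (.of k)}

theorem two_eq_zero_of_scal [CharP k 2] (s : X ⟶ Spec (.of k)) (U : X.Opens) :
    (2 : Γ(X, U)) = 0 := by
  have h : (2 : k) = 0 := by exact_mod_cast CharP.cast_eq_zero k 2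
  have := congrArg (scal s U) h
  rwa [map_zero, map_ofNat] at this

theorem form_compat_aux {A N L : Type*} [CommRing A] [CommRing N] (P : A →+* N) (D : A → N)
    (hadd : ∀ x y, D (x + y) = D x + D y) (hmul : ∀ x y, D (x * y) = P x * D y + P y * D x)
    (h1 : D 1 = 0) (two : (2 : N) = 0) (star : L → L) (κ : L → A) (z z' h : L → A)
    (w w' g : A) (a a' : L) (hg : ∀ l, z' l = g ^ 2 * z l)
    (hw' : w' * (κ (star a') * z' (star a')) = 1)
    (hz : ∀ l, z l = h l ^ 2 + z a * w ^ 2 * (κ (star l) * z (star l)) ^ 2) (j : L) :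
    P (z j * w ^ 2) * D (z a) = P (z' j * w' ^ 2) * D (z' a') := by
  have hsq : ∀ x y : A, D (x ^ 2 * y) = P x ^ 2 * D y := by
    intro x y
    rw [hmul, pow_two, hmul, map_mul]
    linear_combination (P y * P x * D x) * two
  have hsq' : ∀ x : A, D (x ^ 2) = 0 := by
    intro x
    have := hsq x 1
    rwa [mul_one, h1, mul_zero] at this
  have hz' : ∀ l, z l = h l ^ 2 + (w * (κ (star l) * z (star l))) ^ 2 * z a := by
    intro l
    rw [mul_pow, ← mul_comm (z a), ← mul_assoc]
    exact hz l
  have hD : ∀ l, D (z l) = P (w * (κ (star l) * z (star l))) ^ 2 * D (z a) := by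
    intro l
    conv_lhs => rw [hz' l]
    rw [hadd, hsq', hsq, zero_add]
  rw [hg] at hw'
  have hw'' := congrArg P hw'
  simp only [map_mul, map_pow, map_one] at hw''
  rw [hg, hg, hsq, hD a']
  simp only [map_mul, map_pow]
  have e2 : (P w' * (P (κ (star a')) * (P g ^ 2 * P (z (star a'))))) ^ 2 = 1 := by
    rw [hw'', one_pow]
  calc P (z j) * P w ^ 2 * D (z a) = P (z j) * P w ^ 2 * D (z a) *
        (P w' * (P (κ (star a')) * (P g ^ 2 * P (z (star a'))))) ^ 2 := by rw [e2, mul_one]
    _ = _ := by ring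

theorem not_isSRC_of_charts [IsAlgClosed k] [CharP k 2] {L : Type*} (star : L → L) (κ : L → k)
    {ι : Type u} (U : ι → X.Opens) (hU : (⊤ : X.Opens) ≤ ⨆ c, U c)
    (a : ι → L) (z : ∀ c, L → Γ(X, U c)) (h : ∀ c, L → Γ(X, U c)) (w : ∀ c, Γ(X, U c))
    (hg : ∀ c c', ∃ g : Γ(X, U c ⊓ U c'), ∀ l,
      res inf_le_right (z c' l) = g ^ 2 * res inf_le_left (z c l))
    (hw : ∀ c, w c * (scal s (U c) (κ (star (a c))) * z c (star (a c))) = 1)
    (hz : ∀ c l, z c l = h c l ^ 2 +
      z c (a c) * (w c) ^ 2 * (scal s (U c) (κ (star l)) * z c (star l)) ^ 2)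
    (hδ : ∀ c, ∃ δ : TangentSection s (𝟙 X) (U c), δ.toFun (U c) (z c (a c)) = 1) :
    ¬ IsSeparablyRationallyConnected s := by
  let β : L → OneForm s U := fun j =>
    { u := fun c => z c j * (w c) ^ 2
      v := fun c => z c (a c)
      compat := by
        intro Y f W σ c c'
        obtain ⟨g, hg⟩ := hg c c'
        have two : (2 : Γ(Y, W ⊓ f ⁻¹ᵁ (U c ⊓ U c'))) = 0 := by
          have := congrArg (pull f W (U c ⊓ U c')) (two_eq_zero_of_scal s (U c ⊓ U c'))
          rwa [map_zero, map_ofNat] at this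
        have h1 : σ.toFun (U c ⊓ U c') 1 = 0 := by
          have := σ.map_scal' (U c ⊓ U c') 1
          rwa [map_one] at this
        have key := form_compat_aux (pull f W (U c ⊓ U c')) (σ.toFun (U c ⊓ U c'))
          (σ.map_add' _) (σ.leibniz' _) h1 two star (fun l => scal s (U c ⊓ U c') (κ l))
          (fun l => res inf_le_left (z c l)) (fun l => res inf_le_right (z c' l))
          (fun l => res inf_le_left (h c l)) (res inf_le_left (w c)) (res inf_le_right (w c'))
          g (a c) (a c') hg (by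
            have := congrArg (res (inf_le_right : U c ⊓ U c' ≤ U c')) (hw c')
            simpa only [map_mul, res_scal', map_one] using this) (by
            intro l
            have := congrArg (res (inf_le_left : U c ⊓ U c' ≤ U c)) (hz c l)
            simpa only [map_add, map_mul, map_pow, res_scal'] using this) j
        simp only [map_mul, map_pow] at key ⊢
        exact key }
  refine not_isSRC_of_oneForms hU β (fun x => ?_)
  obtain ⟨c, hc⟩ := Opens.mem_iSup.1 (hU (Set.mem_univ x) : x ∈ (⨆ c, U c : X.Opens))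
  obtain ⟨δ, hδ⟩ := hδ c
  refine ⟨c, star (a c), δ, ?_⟩
  have hu1 : IsUnit (z c (star (a c))) := by
    refine IsUnit.of_mul_eq_one (w c * scal s (U c) (κ (star (a c)))) ?_
    rw [← hw c]
    ring
  have hu2 : IsUnit (w c) := IsUnit.of_mul_eq_one _ (hw c)
  have hu : IsUnit (pull (𝟙 X) (U c) (U c) (z c (star (a c)) * (w c) ^ 2) *
      δ.toFun (U c) (z c (a c))) := by
    rw [hδ, mul_one]
    exact (hu1.mul (hu2.pow 2)).map _
  change x ∈ X.basicOpen (pull (𝟙 X) (U c) (U c) (z c (star (a c)) * (w c) ^ 2) *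
      δ.toFun (U c) (z c (a c)))
  rw [Scheme.basicOpen_of_isUnit _ hu]
  exact ⟨hc, hc⟩

end FQ
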