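import Mathlib
import Pool.Agent.Helper52.FQ.Charts

/-!
# Morphisms with constant coordinate functions are constant
-/

open AlgebraicGeometry CategoryTheory TopologicalSpace

universe u

noncomputable section

namespace FQ

variable {k : Type u} [Field k] {X Y : Scheme.{u}} {s : X ⟶ Spec (.of k)}

theorem specMap_appLE_top (s : X ⟶ Spec (.of k)) {U : X.Opens} (hU : IsAffineOpen U) :
    hU.fromSpec ≫ s = Spec.map (CommRingCat.ofHom (scal s U)) := by
  rw [← IsAffineOpen.SpecMap_appLE_fromSpec s (isAffineOpen_top (Spec (.of k))) hU le_top,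
    IsAffineOpen.fromSpec_top, Scheme.isoSpec_Spec_inv, ← Spec.map_comp]
  rfl

theorem factor_of_const [IsIntegral Y] (t : Y ⟶ Spec (.of k)) [IsSeparated s] (f : Y ⟶ X)
    (hf : f ≫ s = t) {U : X.Opens} (hU : IsAffineOpen U) {V : Y.Opens} (hV : V ≤ f ⁻¹ᵁ U)
    (hne : Nonempty V) (h : ∀ x : Γ(X, U), ∃ c : k, (f.appLE U V hV).hom x = scal t V c) :
    ∃ g : Spec (.of k) ⟶ X, g ≫ s = 𝟙 _ ∧ f = t ≫ g := by
  obtain ⟨y, hy⟩ := hne
  obtain ⟨_, ⟨V', hV', rfl⟩, hyV', hle⟩ :=
    Y.isBasis_affineOpens.exists_subset_of_mem_open hy V.isOpen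
  have hV'V : V' ≤ V := hle
  have hne' : Nonempty V' := ⟨⟨y, hyV'⟩⟩
  have hinj : Function.Injective (scal t V') := (scal t V').injective
  let e : k ≃+* (scal t V').range :=
    RingEquiv.ofBijective (scal t V').rangeRestrict
      ⟨fun a b hab => hinj (congrArg Subtype.val hab), (scal t V').rangeRestrict_surjective⟩
  have hmem : ∀ x : Γ(X, U), (f.appLE U V' (hV'V.trans hV)).hom x ∈ (scal t V').range := by
    intro x
    obtain ⟨c, hc⟩ := h x
    refine ⟨c, ?_⟩
    rw [← res_scal' t hV'V c, ← hc]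
    unfold res
    rw [← RingHom.comp_apply, ← CommRingCat.hom_comp, Scheme.Hom.appLE_map]
  let φ : Γ(X, U) →+* k := (e.symm : (scal t V').range →+* k).comp
    ((f.appLE U V' (hV'V.trans hV)).hom.codRestrict (scal t V').range hmem)
  have hφ : (scal t V').comp φ = (f.appLE U V' (hV'V.trans hV)).hom := by
    ext x
    have h1 : e (φ x) = ⟨_, hmem x⟩ := e.apply_symm_apply _
    exact congrArg Subtype.val h1
  have hφs : φ.comp (scal s U) = RingHom.id k := by
    ext c
    apply hinj
    have h1 := congrArg (fun F => F (scal s U c)) hφ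
    simp only [RingHom.comp_apply] at h1
    rw [RingHom.comp_apply, h1, RingHom.id_apply]
    subst hf
    unfold scal
    rw [RingHom.comp_apply, RingHom.comp_apply, ← RingHom.comp_apply, ← CommRingCat.hom_comp,
      Scheme.Hom.appLE_comp_appLE]
  have hg : (Spec.map (CommRingCat.ofHom φ) ≫ hU.fromSpec) ≫ s = 𝟙 _ := by
    rw [Category.assoc, specMap_appLE_top s hU, ← Spec.map_comp, ← CommRingCat.ofHom_comp, hφs]
    exact Spec.map_id _
  refine ⟨Spec.map (CommRingCat.ofHom φ) ≫ hU.fromSpec, hg, ?_⟩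
  have hV'aff : IsAffineOpen V' := hV'
  have : IsDominant hV'aff.fromSpec := by
    refine ⟨?_⟩
    rw [DenseRange, hV'aff.range_fromSpec]
    exact V'.isOpen.dense ⟨y, hyV'⟩
  refine ext_of_isDominant_of_isSeparated s ?_ hV'aff.fromSpec ?_
  · rw [Category.assoc, hg, Category.comp_id, hf]
  · rw [← Category.assoc, specMap_appLE_top t hV'aff,
      ← IsAffineOpen.SpecMap_appLE_fromSpec f hU hV'aff (hV'V.trans hV), ← Category.assoc,
      ← Spec.map_comp, ← CommRingCat.ofHom_comp, hφ]
    rfl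

end FQ
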