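import Mathlib
import Pool.Agent.Helper52.FQ.Factor

/-!
# Charts of a special shape exclude free rational curves
-/

open AlgebraicGeometry CategoryTheory TopologicalSpace

universe u

noncomputable section

namespace FQ

attribute [local instance] MvPolynomial.gradedAlgebra

variable {k : Type u} [Field k] {X Y : Scheme.{u}} {s : X ⟶ Spec (.of k)}

/-- The sections of `𝒪(-a)`, `a ≥ 0`, on the projective line are constants on `D₊(x₀)`. -/
theorem line_const [IsAlgClosed k] {a : ℤ} (ha : 0 ≤ a) (p₀ : Γ(PP k 1, PP.chart k 1 0))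
    (p₁ : Γ(PP k 1, PP.chart k 1 1))
    (h : (res inf_le_left (PP.coord k 1 0 1) ^ (-a).toNat * res inf_le_right p₁ :
        Γ(PP k 1, PP.chart k 1 0 ⊓ PP.chart k 1 1)) =
      res inf_le_left (PP.coord k 1 0 1) ^ a.toNat * res inf_le_left p₀) :
    ∃ c : k, p₀ = scal (PP.str k 1) (PP.chart k 1 0) c := by
  have e1 : (-a).toNat = 0 := by omega
  rw [e1, pow_zero, one_mul] at h
  generalize a.toNat = n at h
  have hmul := PP.coord_mul k 0 1
  set t : Γ(PP k 1, PP.chart k 1 0 ⊓ PP.chart k 1 1) :=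
    res inf_le_left (PP.coord k 1 0 1) with ht
  set r : Γ(PP k 1, PP.chart k 1 0 ⊓ PP.chart k 1 1) :=
    res inf_le_right (PP.coord k 1 1 0) with hr
  obtain ⟨g, hg0, hg1⟩ := exists_glue₂ (PP.chart k 1 0) (PP.chart k 1 1) ⊤ le_top le_top
    (PP.cover k) p₀ (PP.coord k 1 1 0 ^ n * p₁) (by
      rw [map_mul, map_pow, ← hr, h, ← mul_assoc, ← mul_pow, mul_comm r t, hmul, one_pow,
        one_mul])
  obtain ⟨c, hc⟩ := Helper52.FQ.exists_const (PP.str k 1) g
  refine ⟨c, ?_⟩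
  rw [← hg0, ← res_scal' (PP.str k 1) (le_top : PP.chart k 1 0 ≤ ⊤) c, hc]
  congr 1

theorem OneForm.exists_const_value [IsAlgClosed k] {ι : Type u} {U : ι → X.Opens}
    (hU : (⊤ : X.Opens) ≤ ⨆ c, U c) (β : OneForm s U) {f : PP k 1 ⟶ X} {a : ℤ} (ha : 0 ≤ a)
    (e : TangentSection s f (PP.chart k 1 0)) (e' : TangentSection s f (PP.chart k 1 1))
    (hee : ∀ (U : X.Opens) (b : Γ(X, U)),
      (res (inf_le_left.trans inf_le_left) (PP.coord k 1 0 1) ^ (-a).toNat *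
        res (inf_le_inf_right (f ⁻¹ᵁ U) inf_le_right) (e'.toFun U b) :
          Γ(PP k 1, (PP.chart k 1 0 ⊓ PP.chart k 1 1) ⊓ f ⁻¹ᵁ U)) =
        res (inf_le_left.trans inf_le_left) (PP.coord k 1 0 1) ^ a.toNat *
          res (inf_le_inf_right (f ⁻¹ᵁ U) inf_le_left) (e.toFun U b)) :
    ∃ γ : k, ∀ c, pull f (PP.chart k 1 0) (U c) (β.u c) * e.toFun (U c) (β.v c) =
      scal (PP.str k 1) _ γ := by
  obtain ⟨p₀, hp₀⟩ := β.exists_value hU e
  obtain ⟨p₁, hp₁⟩ := β.exists_value hU e'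
  obtain ⟨γ, hγ⟩ := line_const ha p₀ p₁ (by
    have hcov : PP.chart k 1 0 ⊓ PP.chart k 1 1 ≤
        ⨆ c, (PP.chart k 1 0 ⊓ PP.chart k 1 1) ⊓ f ⁻¹ᵁ (U c) := by
      intro y hy
      have h1 : f y ∈ (⨆ c, U c : X.Opens) := hU trivial
      obtain ⟨c, hc⟩ := Opens.mem_iSup.1 h1
      exact Opens.mem_iSup.2 ⟨c, hy, hc⟩
    refine eq_of_res _ _ (fun c => inf_le_left) hcov _ _ (fun c => ?_)
    have h1 := hee (U c) (β.v c)
    have h2 := congrArg (res (inf_le_inf_right (f ⁻¹ᵁ U c)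
      (inf_le_left : PP.chart k 1 0 ⊓ PP.chart k 1 1 ≤ _))) (hp₀ c)
    have h3 := congrArg (res (inf_le_inf_right (f ⁻¹ᵁ U c)
      (inf_le_right : PP.chart k 1 0 ⊓ PP.chart k 1 1 ≤ _))) (hp₁ c)
    rw [res_res, map_mul, res_pull_left f inf_le_left] at h2
    rw [res_res, map_mul, res_pull_left f inf_le_right] at h3
    rw [map_mul, map_mul, map_pow, map_pow, res_res, res_res, res_res, h2, h3]
    calc _ = pull f (PP.chart k 1 0 ⊓ PP.chart k 1 1) (U c) (β.u c) *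
          (res (inf_le_left.trans inf_le_left) (PP.coord k 1 0 1) ^ (-a).toNat *
            res (inf_le_inf_right (f ⁻¹ᵁ U c) inf_le_right) (e'.toFun (U c) (β.v c))) := by
          ring
      _ = _ := by rw [h1]
      _ = _ := by ring)
  exact ⟨γ, fun c => by rw [← hp₀ c, hγ, res_scal']⟩

/-- The algebra of a free curve in one chart. -/
theorem const_aux [IsAlgClosed k] {A R L : Type*} [CommRing A] [CommRing R] [IsDomain R]
    (two : (2 : R) = 0) (i : k →+* R) (P : A →+* R) (j : k →+* A) (hP : ∀ c, P (j c) = i c)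
    (star : L → L) (κ : L → k) (z h : L → A) (w : A) (a m : L) (E : R) (hE : E ≠ 0)
    (γ : L → k) (hγ : ∀ l, P (z l * w ^ 2) * E = i (γ l))
    (hw : w * (j (κ (star a)) * z (star a)) = 1)
    (hz : ∀ l, z l = h l ^ 2 + z a * w ^ 2 * (j (κ (star l)) * z (star l)) ^ 2)
    (hm : h m = 1) :
    (∀ l, ∃ c, P (z l) = i c) ∧ (∀ l, ∃ c, P (h l) = i c) ∧ ∃ c, P w = i c := by
  have hinj : Function.Injective i := i.injective
  have hw' : P w * (i (κ (star a)) * P (z (star a))) = 1 := by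
    rw [← hP, ← map_mul, ← map_mul, hw, map_one]
  have hzu : P (z (star a)) ≠ 0 := by
    intro h0
    rw [h0] at hw'
    simp at hw'
  have hwu : P w ≠ 0 := by
    intro h0
    rw [h0] at hw'
    simp at hw'
  have hκ : κ (star a) ≠ 0 := by
    intro h0
    rw [h0, map_zero] at hw'
    simp at hw'
  have hγa : γ (star a) ≠ 0 := by
    intro h0
    have := hγ (star a)
    rw [h0, map_zero, map_mul, map_pow] at this
    exact mul_ne_zero (mul_ne_zero hzu (pow_ne_zero 2 hwu)) hE this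
  -- `P (z l) = i (γ l / γ a*) P (z a*)`
  set t := P (z (star a)) with ht
  have h1 : ∀ l, P (z l) = i (γ l / γ (star a)) * t := by
    intro l
    have h2 := hγ l
    have h3 := hγ (star a)
    rw [map_mul, map_pow] at h2 h3
    have h4 : i (γ (star a)) ≠ 0 := by
      rw [Ne, map_eq_zero]
      exact hγa
    apply mul_left_cancel₀ h4
    have h5 : i (γ (star a)) * i (γ l / γ (star a)) = i (γ l) := by
      rw [← map_mul, mul_div_cancel₀ _ hγa]
    rw [← mul_assoc, h5, ← h2, ← h3]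
    ring
  -- `t` is a constant
  have ht1 : ∃ c, t = i c := by
    have h2 := congrArg P (hz m)
    rw [hm] at h2
    simp only [map_add, map_mul, map_pow, map_one, hP] at h2
    rw [h1 m, h1 a, h1 (star m)] at h2
    set A1 := γ m / γ (star a)
    set A2 := γ a / γ (star a)
    set A3 := γ (star m) / γ (star a)
    have h3 : i (A1 * κ (star a) ^ 2 - A2 * (κ (star m) * A3) ^ 2) * t =
        i (κ (star a) ^ 2) := by
      have h4 : t ^ 2 ≠ 0 := pow_ne_zero 2 hzu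
      apply mul_left_cancel₀ h4
      have h5 : (P w * (i (κ (star a)) * t)) ^ 2 = 1 := by rw [hw', one_pow]
      simp only [map_sub, map_mul, map_pow]
      linear_combination (i (κ (star a)) * t) ^ 2 * h2 +
        (i A2 * t * (i (κ (star m)) * (i A3 * t)) ^ 2) * h5
    have h4 : A1 * κ (star a) ^ 2 - A2 * (κ (star m) * A3) ^ 2 ≠ 0 := by
      intro h5
      rw [h5, map_zero, zero_mul, eq_comm, map_eq_zero] at h3
      exact hκ (pow_eq_zero_iff (two_ne_zero) |>.1 h3)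
    refine ⟨κ (star a) ^ 2 / (A1 * κ (star a) ^ 2 - A2 * (κ (star m) * A3) ^ 2), ?_⟩
    have h5 : i (A1 * κ (star a) ^ 2 - A2 * (κ (star m) * A3) ^ 2) ≠ 0 := by
      rw [Ne, map_eq_zero]
      exact h4
    apply mul_left_cancel₀ h5
    rw [h3, ← map_mul, mul_div_cancel₀ _ h4]
  obtain ⟨t₀, ht₀⟩ := ht1
  have hz1 : ∀ l, ∃ c, P (z l) = i c := fun l => ⟨γ l / γ (star a) * t₀, by
    rw [h1, ht₀, ← map_mul]⟩
  have ht₀' : κ (star a) * t₀ ≠ 0 := by
    intro h0
    rw [ht₀, ← map_mul, h0, map_zero, mul_zero] at hw'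
    exact zero_ne_one hw'
  have hw1 : ∃ c, P w = i c := by
    refine ⟨(κ (star a) * t₀)⁻¹, ?_⟩
    have h5 : i (κ (star a) * t₀) ≠ 0 := by
      rw [Ne, map_eq_zero]
      exact ht₀'
    apply mul_right_cancel₀ h5
    rw [← map_mul, inv_mul_cancel₀ ht₀', map_one, map_mul, ← ht₀, hw']
  refine ⟨hz1, fun l => ?_, hw1⟩
  obtain ⟨c1, hc1⟩ := hz1 l
  obtain ⟨c2, hc2⟩ := hz1 a
  obtain ⟨c3, hc3⟩ := hz1 (star l)
  obtain ⟨c4, hc4⟩ := hw1
  obtain ⟨d, hd⟩ := IsAlgClosed.exists_pow_nat_eq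
    (c1 - c2 * c4 ^ 2 * (κ (star l) * c3) ^ 2) (n := 2) (by norm_num)
  refine ⟨d, ?_⟩
  have h2 := congrArg P (hz l)
  simp only [map_add, map_mul, map_pow, hP] at h2
  rw [hc1, hc2, hc3, hc4] at h2
  have h3 : (P (h l) - i d) ^ 2 = 0 := by
    have h4 : i d ^ 2 = i c1 - i c2 * i c4 ^ 2 * (i (κ (star l)) * i c3) ^ 2 := by
      rw [← map_pow, hd]
      simp only [map_sub, map_mul, map_pow]
    linear_combination (-1 : R) * h2 - h4 + (i d ^ 2 - P (h l) * i d) * two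
  exact sub_eq_zero.1 (pow_eq_zero_iff two_ne_zero |>.1 h3)

theorem exists_chartForm [CharP k 2] {L : Type*} (star : L → L) (κ : L → k)
    {ι : Type u} (U : ι → X.Opens)
    (a : ι → L) (z : ∀ c, L → Γ(X, U c)) (h : ∀ c, L → Γ(X, U c)) (w : ∀ c, Γ(X, U c))
    (hg : ∀ c c', ∃ g : Γ(X, U c ⊓ U c'), ∀ l,
      res inf_le_right (z c' l) = g ^ 2 * res inf_le_left (z c l))
    (hw : ∀ c, w c * (scal s (U c) (κ (star (a c))) * z c (star (a c))) = 1)
    (hz : ∀ c l, z c l = h c l ^ 2 +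
      z c (a c) * (w c) ^ 2 * (scal s (U c) (κ (star l)) * z c (star l)) ^ 2) (j : L) :
    ∃ β : OneForm s U, (∀ c, β.u c = z c j * (w c) ^ 2) ∧ ∀ c, β.v c = z c (a c) := by
  refine ⟨{ u := fun c => z c j * (w c) ^ 2
            v := fun c => z c (a c)
            compat := ?_ }, fun c => rfl, fun c => rfl⟩
  intro Y f W σ c c'
  obtain ⟨g, hg⟩ := hg c c'
  have two : (2 : Γ(Y, W ⊓ f ⁻¹ᵁ (U c ⊓ U c'))) = 0 := by
    have := congrArg (pull f W (U c ⊓ U c')) (two_eq_zero_of_scal s (U c ⊓ U c'))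
    rwa [map_zero, map_ofNat] at this
  have h1 : σ.toFun (U c ⊓ U c') 1 = 0 := by
    have := σ.map_scal' (U c ⊓ U c') 1
    rwa [map_one] at this
  have key := form_compat_aux (pull f W (U c ⊓ U c')) (σ.toFun (U c ⊓ U c'))
    (σ.map_add' _) (σ.leibniz' _) h1 two star (fun l => scal s (U c ⊓ U c') (κ l))
    (fun l => res inf_le_left (z c l)) (fun l => res inf_le_right (z c' l))
    (fun l => res inf_le_left (h c l)) (res inf_le_left (w c)) (res inf_le_right (w c'))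
    g (a c) (a c') hg (by
      have := congrArg (res (inf_le_right : U c ⊓ U c' ≤ U c')) (hw c')
      simpa only [map_mul, res_scal', map_one] using this) (by
      intro l
      have := congrArg (res (inf_le_left : U c ⊓ U c' ≤ U c)) (hz c l)
      simpa only [map_add, map_mul, map_pow, res_scal'] using this) j
  simp only [map_mul, map_pow] at key ⊢
  exact key

theorem const_of_free_of_charts [IsAlgClosed k] [CharP k 2] [IsSeparated s] {L : Type*}
    (star : L → L) (κ : L → k) {ι : Type u} (U : ι → X.Opens) (hU : (⊤ : X.Opens) ≤ ⨆ c, U c)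
    (hUa : ∀ c, IsAffineOpen (U c))
    (a m : ι → L) (z : ∀ c, L → Γ(X, U c)) (h : ∀ c, L → Γ(X, U c)) (w : ∀ c, Γ(X, U c))
    (hg : ∀ c c', ∃ g : Γ(X, U c ⊓ U c'), ∀ l,
      res inf_le_right (z c' l) = g ^ 2 * res inf_le_left (z c l))
    (hw : ∀ c, w c * (scal s (U c) (κ (star (a c))) * z c (star (a c))) = 1)
    (hz : ∀ c l, z c l = h c l ^ 2 +
      z c (a c) * (w c) ^ 2 * (scal s (U c) (κ (star l)) * z c (star l)) ^ 2)
    (hm : ∀ c, h c (m c) = 1)
    (hδ : ∀ c, ∃ δ : TangentSection s (𝟙 X) (U c), δ.toFun (U c) (z c (a c)) = 1)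
    (hgen : ∀ c (S : Subring Γ(X, U c)), (∀ t, scal s (U c) t ∈ S) → (∀ l, z c l ∈ S) →
      (∀ l, h c l ∈ S) → w c ∈ S → ∀ x, x ∈ S)
    (f : PP k 1 ⟶ X) (hf : f ≫ s = PP.str k 1) {n : ℕ} (b : Fin n → ℤ) (hb : ∀ i, 0 ≤ b i)
    (hs : SplitsAs s f b) : ∃ g : Spec (.of k) ⟶ X, g ≫ s = 𝟙 _ ∧ f = PP.str k 1 ≫ g := by
  obtain ⟨e, e', he, -, hee⟩ := hs
  have h1 : ∀ (i : Fin n) (l : L), ∃ γ : k, ∀ c,
      pull f (PP.chart k 1 0) (U c) (z c l * (w c) ^ 2) * (e i).toFun (U c) (z c (a c)) =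
        scal (PP.str k 1) _ γ := by
    intro i l
    obtain ⟨β, hβu, hβv⟩ := exists_chartForm star κ U a z h w hg hw hz l
    obtain ⟨γ, hγ⟩ := β.exists_const_value hU (hb i) (e i) (e' i) (hee i)
    refine ⟨γ, fun c => ?_⟩
    rw [← hβu, ← hβv]
    exact hγ c
  choose γ hγ using h1
  obtain ⟨y, hy⟩ := PP.nonempty_chart k 0
  have h2 : f y ∈ (⨆ c, U c : X.Opens) := hU trivial
  obtain ⟨c, hc⟩ := Opens.mem_iSup.1 h2
  obtain ⟨δ, hδ⟩ := hδ c
  set V : (PP k 1).Opens := PP.chart k 1 0 ⊓ f ⁻¹ᵁ (U c) with hV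
  have hVne : Nonempty V := ⟨⟨y, hy, hc⟩⟩
  obtain ⟨g, hg, -⟩ := he V inf_le_left ((δ.comp f).restrict inf_le_right)
  have h3 := hg (U c) (z c (a c))
  obtain ⟨i, hi⟩ : ∃ i, (e i).toFun (U c) (z c (a c)) ≠ 0 := by
    by_contra hcon
    push Not at hcon
    have h4 : ((δ.comp f).restrict (inf_le_right : V ≤ _)).toFun (U c) (z c (a c)) = 1 := by
      change res _ ((f.appLE _ _ _).hom (δ.toFun (U c) (z c (a c)))) = 1
      rw [hδ, map_one, map_one]
    rw [h4] at h3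
    have h5 : (1 : Γ(PP k 1, V ⊓ f ⁻¹ᵁ (U c))) = 0 := by
      rw [h3]
      refine Finset.sum_eq_zero fun i _ => ?_
      rw [hcon i, map_zero, mul_zero]
    have hne : Nonempty (V ⊓ f ⁻¹ᵁ (U c) : (PP k 1).Opens) := ⟨⟨y, ⟨hy, hc⟩, hc⟩⟩
    exact one_ne_zero h5
  have hP : ∀ t : k, pull f (PP.chart k 1 0) (U c) (scal s (U c) t) =
      scal (PP.str k 1) V t := by
    intro t
    rw [← hf]
    unfold scal pull
    rw [RingHom.comp_apply, RingHom.comp_apply, ← RingHom.comp_apply, ← CommRingCat.hom_comp,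
      Scheme.Hom.appLE_comp_appLE]
  have two : (2 : Γ(PP k 1, V)) = 0 := two_eq_zero_of_scal (PP.str k 1) V
  obtain ⟨q1, q2, q3⟩ := const_aux two (scal (PP.str k 1) V)
    (pull f (PP.chart k 1 0) (U c)) (scal s (U c)) hP star κ (z c) (h c) (w c) (a c) (m c)
    _ hi (γ i) (fun l => hγ i l c) (hw c) (hz c) (hm c)
  have q4 : ∀ x, x ∈ Subring.comap (pull f (PP.chart k 1 0) (U c))
      (scal (PP.str k 1) V).range := by
    refine hgen c _ (fun t => ?_) (fun l => ?_) (fun l => ?_) ?_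
    · exact ⟨t, (hP t).symm⟩
    · obtain ⟨d, hd⟩ := q1 l
      exact ⟨d, hd.symm⟩
    · obtain ⟨d, hd⟩ := q2 l
      exact ⟨d, hd.symm⟩
    · obtain ⟨d, hd⟩ := q3
      exact ⟨d, hd.symm⟩
  refine factor_of_const (PP.str k 1) f hf (hUa c) (V := V) inf_le_right hVne (fun x => ?_)
  obtain ⟨d, hd⟩ := q4 x
  exact ⟨d, hd.symm⟩

end FQ
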