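import Mathlib
import Pool.Agent.Helper41.FQ.M.Overlap
import Pool.Agent.Helper41.FQ.M.Cover
import Pool.Agent.Helper41.FQ.M.Basis
import Pool.Agent.Helper52.FQ.Free

/-!
# `X` has no free rational curves

Every morphism `f : ℙ¹ ⟶ X` such that `f^* T_X` is globally generated (`f^* T_X ≅ ⨁ 𝒪(aᵢ)` with
all `aᵢ ≥ 0`) is constant: `X` is not separably uniruled.
-/

open CategoryTheory AlgebraicGeometry TopologicalSpace

universe u

namespace FQ

private theorem lab_injective_aux (w : List (Fin 4)) : Function.Injective (lab w) := by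
  induction w with
  | nil => exact fun _ _ h => h
  | cons i w ih =>
    intro a b h
    have h1 : mv i a = mv i b := ih h
    rw [← mv_mv i a, h1, mv_mv]

private theorem exists_inv_aux (w : List (Fin 4)) :
    ∃ f : Idx → Idx, (∀ l, f (lab w l) = l) ∧ ∀ b, lab w (f b) = b := by
  obtain ⟨f, hf1, hf2⟩ := Function.bijective_iff_has_inverse.1
    ⟨lab_injective_aux w, lab_surjective w⟩
  exact ⟨f, hf1, hf2⟩

variable {k : Type u} [Field k] [IsAlgClosed k] [CharP k 2] {κ : Idx → k} {L : Type u} [Field L]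
  [Algebra k L] {N : ℕ} {e : Fin (N + 1) → L}

omit [IsAlgClosed k] in
private theorem chart_derivation_aux (κ : Idx → k) :
    ∃ δ : ChartRing κ → ChartRing κ, (∀ x y, δ (x + y) = δ x + δ y) ∧
      (∀ x y, δ (x * y) = x * δ y + y * δ x) ∧ (∀ c : k, δ (algebraMap k _ c) = 0) ∧
      δ ((ChartRing.pt κ).Z (0, false)) = 1 := by
  obtain ⟨b, hb⟩ := ChartRing.exists_basis κ
  refine ⟨fun x => b.coord 0 (KaehlerDifferential.D k (ChartRing κ) x), ?_, ?_, ?_, ?_⟩
  · intro x y
    beta_reduce
    rw [map_add, map_add]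
  · intro x y
    beta_reduce
    rw [Derivation.leibniz, map_add, map_smul, map_smul, smul_eq_mul, smul_eq_mul]
  · intro c
    beta_reduce
    rw [Derivation.map_algebraMap, map_zero]
  · beta_reduce
    have h0 : KaehlerDifferential.D k (ChartRing κ) ((ChartRing.pt κ).Z (0, false)) = b 0 :=
      (hb 0).symm
    rw [h0, Module.Basis.coord_apply, Module.Basis.repr_self, Finsupp.single_eq_same]

omit [IsAlgClosed k] [CharP k 2] in
/-- The chart ring is generated by the scalars and by `Z`, `h`, `w`. -/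
theorem ChartRing.mem_of_gens (κ : Idx → k) (S : Subring (ChartRing κ))
    (hk : ∀ t : k, algebraMap k (ChartRing κ) t ∈ S) (hZ : ∀ l, (ChartRing.pt κ).Z l ∈ S)
    (hh : ∀ l, (ChartRing.pt κ).h l ∈ S) (hw : (ChartRing.pt κ).w ∈ S) (x : ChartRing κ) :
    x ∈ S := by
  obtain ⟨p, rfl⟩ := ChartRing.mk_surjective κ x
  induction p using MvPolynomial.induction_on with
  | C t =>
    have h1 : ChartRing.mk κ (MvPolynomial.C t) = algebraMap k (ChartRing κ) t :=
      (ChartRing.mk κ).commutes t
    rw [h1]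
    exact hk t
  | add p q hp hq =>
    rw [map_add]
    exact S.add_mem hp hq
  | mul_X p v hp =>
    rw [map_mul]
    refine S.mul_mem hp ?_
    rcases v with l | i
    · exact hZ l
    · fin_cases i
      · exact hw
      · exact hh (2, false)
      · exact hh (2, true)
      · exact hh (3, false)
      · exact hh (3, true)

/-- A morphism `f : ℙ¹ ⟶ X` with `f^* T_X ≅ ⨁ 𝒪(aᵢ)`, `aᵢ ≥ 0`, is constant. -/
theorem model_not_free' (x : GP κ L) (he : Set.range e = x.gens) (M : Model (k := k) e)
    (f : PP k 1 ⟶ M.X) (hf : f ≫ M.s = PP.str k 1) {n : ℕ} (a : Fin n → ℤ)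
    (ha : ∀ i, 0 ≤ a i) (hs : SplitsAs M.s f a) :
    ∃ g : Spec (.of k) ⟶ M.X, g ≫ M.s = 𝟙 _ ∧ f = PP.str k 1 ≫ g := by
  classical
  have hρ := fun c : ULift.{u} (ChartIdx x e) => c.down.exists_equiv he M
  choose ρ hρval hρalg using hρ
  have hinv := fun c : ULift.{u} (ChartIdx x e) => exists_inv_aux c.down.w
  choose inv hinv1 hinv2 using hinv
  have hstar : ∀ (c : ULift.{u} (ChartIdx x e)) (b : Idx), inv c (star b) = star (inv c b) := by
    intro c b
    have h1 := lab_star c.down.w (inv c b)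
    rw [hinv2] at h1
    rw [← h1, hinv1]
  have hκ : ∀ (c : ULift.{u} (ChartIdx x e)) (b : Idx),
      κ b = labκ κ c.down.w (inv c b) := by
    intro c b
    rw [labκ_eq, hinv2]
  have haff : ∀ c : ULift.{u} (ChartIdx x e), IsAffineOpen (c.down.U M) :=
    fun c => M.inter_affine _ _
  refine const_of_free_of_charts (s := M.s) star κ
    (fun c : ULift.{u} (ChartIdx x e) => c.down.U M) ?_ haff
    (fun c => lab c.down.w (0, false)) (fun c => lab c.down.w (1, false))
    (fun c b => ρ c ((ChartRing.pt _).Z (inv c b)))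
    (fun c b => ρ c ((ChartRing.pt _).h (inv c b))) (fun c => ρ c (ChartRing.pt _).w)
    ?_ ?_ ?_ ?_ ?_ ?_ f hf a ha hs
  · -- the cover
    intro p _
    obtain ⟨c, hc⟩ := x.cover_chart he M p
    exact Opens.mem_iSup.2 ⟨⟨c⟩, hc⟩
  · -- the overlaps
    intro c c'
    obtain ⟨g, hg⟩ := ChartIdx.exists_ratio he M c.down c'.down
    refine ⟨g, fun b => ?_⟩
    have := ChartIdx.inter_nonempty M c.down c'.down
    apply M.val_injective
    rw [map_mul, map_pow, hg, M.val_res, M.val_res, hρval, hρval]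
    have e1 : ∀ c : ULift.{u} (ChartIdx x e),
        (x.lab c.down.w).chartPt.lift ((ChartRing.pt _).Z (inv c b)) =
          x.ζ b ^ 2 / (x.lab c.down.w).toGenPt.lmb ^ 2 := by
      intro c
      have h1 : (x.lab c.down.w).chartPt.lift ((ChartRing.pt _).Z (inv c b)) =
          (x.lab c.down.w).cZ (inv c b) := by
        show (x.lab c.down.w).chartPt.lift (ChartRing.mk _ _) = _
        rw [ChartPt.lift_mk, MvPolynomial.aeval_X]
        rfl
      rw [h1, GP.cZ, x.lab_ζ, hinv2]
    rw [e1, e1]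
    have h1 := (x.lab c.down.w).lmb_ne
    have h2 := (x.lab c'.down.w).lmb_ne
    field_simp
  · -- `w Λ_a = 1`
    intro c
    have h1 := (ChartRing.pt (labκ κ c.down.w)).eq_w
    rw [hκ c, ← hρalg, ← map_mul, ← map_mul, hstar, hinv1, ← map_one (ρ c)]
    exact congrArg (ρ c) h1
  · -- the relations
    intro c b
    rw [hκ c (star b), ← hρalg, ← map_mul, ← map_pow, ← map_pow, hinv1, hstar, ← map_pow,
      ← map_mul, ← map_mul, ← map_add]
    refine congrArg (ρ c) ?_
    have h1 := (ChartRing.pt (labκ κ c.down.w)).eq_w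
    have h2 := (ChartRing.pt (labκ κ c.down.w)).h_a
    by_cases hb : inv c b = (0, false)
    · rw [hb, h2]
      have h3 : (ChartRing.pt (labκ κ c.down.w)).w ^ 2 *
          lam (labκ κ c.down.w) (ChartRing.pt (labκ κ c.down.w)).Z (0, false) ^ 2 = 1 := by
        rw [← mul_pow, h1, one_pow]
      rw [lam] at h3
      rw [mul_assoc, h3]
      ring
    · exact (ChartRing.pt (labκ κ c.down.w)).eq_Z _ hb
  · -- `h_m = 1`
    intro c
    rw [hinv1, (ChartRing.pt (labκ κ c.down.w)).h_m, map_one]
  · -- the vector field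
    intro c
    obtain ⟨δ, hadd, hmul, halg, hδ⟩ := chart_derivation_aux (labκ κ c.down.w)
    obtain ⟨σ, hσ⟩ := exists_ofDerivation M.s (haff c)
      (fun y => ρ c (δ ((ρ c).symm y)))
      (by intro x y; simp only [map_add, hadd])
      (by
        intro x y
        simp only [map_mul, hmul, map_add, RingEquiv.apply_symm_apply])
      (by
        intro t
        rw [← hρalg, RingEquiv.symm_apply_apply, halg, map_zero])
    refine ⟨σ, ?_⟩
    rw [hσ, hinv1, RingEquiv.symm_apply_apply, hδ, map_one, map_one]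
  · -- the generators
    intro c S hk hZ hh hw y
    obtain ⟨y, rfl⟩ := (ρ c).surjective y
    refine ChartRing.mem_of_gens (labκ κ c.down.w) (S.comap (ρ c : _ →+* _)) ?_ ?_ ?_ ?_ y
    · intro t
      have := hk t
      rw [← hρalg] at this
      exact this
    · intro l
      have := hZ (lab c.down.w l)
      rw [hinv1] at this
      exact this
    · intro l
      have := hh (lab c.down.w l)
      rw [hinv1] at this
      exact this
    · exact hw

/-- A morphism `f : ℙ¹ ⟶ X` with `f^* T_X ≅ ⨁ 𝒪(aᵢ)`, `aᵢ ≥ 0`, is constant. -/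
theorem model_not_free (x : GP κ L) (he : Set.range e = x.gens) (M : Model (k := k) e)
    (f : PP k 1 ⟶ M.X) (hf : f ≫ M.s = PP.str k 1) (n : ℕ) (a : Fin n → ℤ)
    (h : SplitsAs M.s f a) (ha : ∀ i, 0 ≤ a i) :
    ∃ g : Spec (.of k) ⟶ M.X, f = PP.str k 1 ≫ g := by
  obtain ⟨g, -, hg⟩ := model_not_free' x he M f hf a ha h
  exact ⟨g, hg⟩

end FQ
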